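import Pool.Agent.Lib.MP_c7af3c_ag.GEN.Schemes
import Pool.Agent.Lib.MP_c7af3c_ag.GEN.H96.Sfrac

/-!
# MP_c7af3c_ag, project GEN, module SPREAD: finitely generated coefficients of a function on the
geometric fibre
-/

set_option autoImplicit false

namespace Pool.Agent.Gen.H17

open AlgebraicGeometry CategoryTheory CategoryTheory.Limits
open Pool.Agent.Gen

section

variable {k : Type} [Field k]

theorem secPt_fst (R : Subring k) {M : Scheme.{0}} (p : M ⟶ Spec (CommRingCat.of R))
    (s : Spec (CommRingCat.of R) ⟶ M) (hs : s ≫ p = 𝟙 _) :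
    secPt R p s hs ≫ pullback.fst p (specIncl R) = specIncl R ≫ s := by
  unfold secPt
  rw [pullback.lift_fst]

theorem secPt_snd (R : Subring k) {M : Scheme.{0}} (p : M ⟶ Spec (CommRingCat.of R))
    (s : Spec (CommRingCat.of R) ⟶ M) (hs : s ≫ p = 𝟙 _) :
    secPt R p s hs ≫ pullback.snd p (specIncl R) = 𝟙 _ := by
  unfold secPt
  rw [pullback.lift_snd]

/-- values of the constants -/
theorem kval_const {Y : Scheme.{0}} (y : Spec (CommRingCat.of k) ⟶ Y)
    (q : Y ⟶ Spec (CommRingCat.of k)) (hq : y ≫ q = 𝟙 _) (W : Y.Opens) (h : ⊤ ≤ y ⁻¹ᵁ W) (a : k) :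
    kval y W h ((q.appLE ⊤ W le_top).hom ((Scheme.ΓSpecIso (CommRingCat.of k)).inv.hom a)) = a := by
  have h1 := H96.kval_comp y q ⊤ W le_top h le_top
    ((Scheme.ΓSpecIso (CommRingCat.of k)).inv.hom a)
  rw [← h1]
  have h2 : ∀ (t : Spec (CommRingCat.of k) ⟶ Spec (CommRingCat.of k)) (_ : t = 𝟙 _)
      (g : Γ(Spec (CommRingCat.of k), ⊤)), kval t ⊤ le_top g
        = (Scheme.ΓSpecIso (CommRingCat.of k)).hom.hom g := by
    intro t ht g
    subst ht
    unfold kval
    congr 1
  rw [h2 _ hq]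
  have := congrArg (fun m => m.hom a) (Scheme.ΓSpecIso (CommRingCat.of k)).inv_hom_id
  exact this

/-- values of the functions which come from `M` -/
theorem kval_base (h1 : SfracStatement) (R : Subring k) {M : Scheme.{0}}
    (p : M ⟶ Spec (CommRingCat.of R)) (s : Spec (CommRingCat.of R) ⟶ M) (hs : s ≫ p = 𝟙 _)
    (U : M.Opens) (h : ⊤ ≤ secPt R p s hs ⁻¹ᵁ (pullback.fst p (specIncl R) ⁻¹ᵁ U)) (b : Γ(M, U)) :
    kval (secPt R p s hs) _ h (((pullback.fst p (specIncl R)).app U).hom b)
      ∈ Subfield.closure (R : Set k) := by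
  have h2 : ⊤ ≤ (secPt R p s hs ≫ pullback.fst p (specIncl R)) ⁻¹ᵁ U := h
  have h3 := H96.kval_comp (secPt R p s hs) (pullback.fst p (specIncl R)) U
    (pullback.fst p (specIncl R) ⁻¹ᵁ U) le_rfl h h2 b
  rw [Scheme.Hom.app_eq_appLE]
  rw [← h3]
  have h4 : ∀ (t : Spec (CommRingCat.of k) ⟶ M) (_ : t = specIncl R ≫ s) (ht : ⊤ ≤ t ⁻¹ᵁ U),
      kval t U ht b ∈ Subfield.closure (R : Set k) := by
    intro t ht hU
    subst ht
    exact h1 k R M s U hU b
  exact h4 _ (secPt_fst R p s hs) h2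

/-- the subring of the functions with values in a finitely generated extension -/
noncomputable def goodSub (R : Subring k) {M : Scheme.{0}} (p : M ⟶ Spec (CommRingCat.of R))
    (W : (pullback p (specIncl R)).Opens) : Subring Γ(pullback p (specIncl R), W) where
  carrier := {u | ∃ T : Set k, T.Finite ∧ ∀ (s : Spec (CommRingCat.of R) ⟶ M) (hs : s ≫ p = 𝟙 _)
    (h : ⊤ ≤ secPt R p s hs ⁻¹ᵁ W), kval (secPt R p s hs) W h u ∈ Subfield.closure (R ∪ T)}
  mul_mem' := by
    rintro a b ⟨T, hT, h1⟩ ⟨T', hT', h2⟩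
    refine ⟨T ∪ T', hT.union hT', ?_⟩
    intro s hs h
    have h3 := Subfield.closure_mono (Set.union_subset_union_right (R : Set k)
      (Set.subset_union_left (s := T) (t := T'))) (h1 s hs h)
    have h4 := Subfield.closure_mono (Set.union_subset_union_right (R : Set k)
      (Set.subset_union_right (s := T) (t := T'))) (h2 s hs h)
    rw [H96.kval_eq] at h3 h4 ⊢
    rw [map_mul]
    exact mul_mem h3 h4
  one_mem' := by
    refine ⟨∅, Set.finite_empty, ?_⟩
    intro s hs h
    rw [H96.kval_eq, map_one]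
    exact one_mem _
  add_mem' := by
    rintro a b ⟨T, hT, h1⟩ ⟨T', hT', h2⟩
    refine ⟨T ∪ T', hT.union hT', ?_⟩
    intro s hs h
    have h3 := Subfield.closure_mono (Set.union_subset_union_right (R : Set k)
      (Set.subset_union_left (s := T) (t := T'))) (h1 s hs h)
    have h4 := Subfield.closure_mono (Set.union_subset_union_right (R : Set k)
      (Set.subset_union_right (s := T) (t := T'))) (h2 s hs h)
    rw [H96.kval_eq] at h3 h4 ⊢
    rw [map_add]
    exact add_mem h3 h4
  zero_mem' := by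
    refine ⟨∅, Set.finite_empty, ?_⟩
    intro s hs h
    rw [H96.kval_eq, map_zero]
    exact zero_mem _
  neg_mem' := by
    rintro a ⟨T, hT, h1⟩
    refine ⟨T, hT, ?_⟩
    intro s hs h
    have h3 := h1 s hs h
    rw [H96.kval_eq] at h3 ⊢
    rw [map_neg]
    exact neg_mem h3

theorem good_top (h1 : SfracStatement) (h2 : StensStatement) (R : Subring k) {M : Scheme.{0}}
    (p : M ⟶ Spec (CommRingCat.of R)) (U : M.Opens) (hU : IsAffineOpen U) :
    goodSub R p (pullback.fst p (specIncl R) ⁻¹ᵁ U) = ⊤ := by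
  have h3 := (h2 (CommRingCat.of R) (CommRingCat.of k) (CommRingCat.ofHom R.subtype) M p U hU).2
  apply h3
  · intro b
    refine ⟨∅, Set.finite_empty, ?_⟩
    intro s hs h
    rw [Set.union_empty]
    exact kval_base h1 R p s hs U h b
  · intro a
    refine ⟨{a}, Set.finite_singleton a, ?_⟩
    intro s hs h
    have h4 := kval_const (secPt R p s hs) (pullback.snd p (specIncl R)) (secPt_snd R p s hs)
      (pullback.fst p (specIncl R) ⁻¹ᵁ U) h a
    have h5 : a ∈ Subfield.closure ((R : Set k) ∪ {a}) := Subfield.subset_closure (by simp)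
    exact h4.symm ▸ h5

theorem local_good (h1 : SfracStatement) (h2 : StensStatement) (R : Subring k) {M : Scheme.{0}}
    (p : M ⟶ Spec (CommRingCat.of R)) (V : (pullback p (specIncl R)).Opens)
    (f : Γ(pullback p (specIncl R), V)) (z : (pullback p (specIncl R) : Scheme.{0})) (hz : z ∈ V) :
    ∃ (D : (pullback p (specIncl R)).Opens) (T : Set k), z ∈ D ∧ T.Finite ∧
      ∀ (s : Spec (CommRingCat.of R) ⟶ M) (hs : s ≫ p = 𝟙 _)
        (h : ⊤ ≤ secPt R p s hs ⁻¹ᵁ V) (_ : ⊤ ≤ secPt R p s hs ⁻¹ᵁ D),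
        kval (secPt R p s hs) V h f ∈ Subfield.closure (R ∪ T) := by
  obtain ⟨U, hU, hzU, -⟩ := exists_isAffineOpen_mem_and_subset
    (x := (pullback.fst p (specIncl R)).base z) (U := ⊤) trivial
  have hW : IsAffineOpen (pullback.fst p (specIncl R) ⁻¹ᵁ U) :=
    (h2 (CommRingCat.of R) (CommRingCat.of k) (CommRingCat.ofHom R.subtype) M p U hU).1
  have hzW : z ∈ pullback.fst p (specIncl R) ⁻¹ᵁ U := hzU
  have hgood := good_top h1 h2 R p U hU
  set W := pullback.fst p (specIncl R) ⁻¹ᵁ U with hWdef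
  obtain ⟨g, hgV, hzg⟩ := hW.exists_basicOpen_le (V := V) ⟨z, hz⟩ hzW
  have hDW : (pullback p (specIncl R)).basicOpen g ≤ W := Scheme.basicOpen_le _ g
  have hloc := hW.isLocalization_basicOpen g
  have hu := hloc.surj
  obtain ⟨n, a, ha⟩ := hu
    (((pullback p (specIncl R)).presheaf.map (homOfLE hgV).op).hom f)
  have hga : a ∈ goodSub R p W := hgood ▸ Subring.mem_top a
  have hgg : g ∈ goodSub R p W := hgood ▸ Subring.mem_top g
  obtain ⟨T1, hT1, ha1⟩ := hga
  obtain ⟨T2, hT2, hg2⟩ := hgg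
  refine ⟨(pullback p (specIncl R)).basicOpen g, T1 ∪ T2, hzg, hT1.union hT2, ?_⟩
  intro s hs h hD
  have hWs : ⊤ ≤ secPt R p s hs ⁻¹ᵁ W := le_trans hD (fun x hx => hDW hx)
  have e1 := H96.kval_res (secPt R p s hs) V _ hgV hD h f
  have e2 := H96.kval_res (secPt R p s hs) W _ hDW hD hWs g
  have e3 := H96.kval_res (secPt R p s hs) W _ hDW hD hWs a
  have hne : kval (secPt R p s hs) W hWs g ≠ 0 := by
    rw [← e2, H96.kval_eq]
    have hun : IsUnit (((pullback p (specIncl R)).presheaf.map (homOfLE hDW).op).hom g) :=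
      IsLocalization.Away.algebraMap_isUnit (S := Γ(pullback p (specIncl R),
        (pullback p (specIncl R)).basicOpen g)) g
    exact (hun.map (H96.kvalHom (secPt R p s hs) _ hD)).ne_zero
  have e4 := congrArg (kval (secPt R p s hs) _ hD) ha
  have e5 : kval (secPt R p s hs) V h f * kval (secPt R p s hs) W hWs g ^ n
      = kval (secPt R p s hs) W hWs a := by
    rw [← e1, ← e2, ← e3, H96.kval_eq, H96.kval_eq, H96.kval_eq, ← map_pow, ← map_mul]
    exact e4
  have e6 : kval (secPt R p s hs) V h f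
      = kval (secPt R p s hs) W hWs a * (kval (secPt R p s hs) W hWs g ^ n)⁻¹ := by
    rw [← e5, mul_assoc, mul_inv_cancel₀ (pow_ne_zero n hne), mul_one]
  have h3 := Subfield.closure_mono (Set.union_subset_union_right (R : Set k)
    (Set.subset_union_left (s := T1) (t := T2))) (ha1 s hs hWs)
  have h4 := Subfield.closure_mono (Set.union_subset_union_right (R : Set k)
    (Set.subset_union_right (s := T1) (t := T2))) (hg2 s hs hWs)
  rw [e6]
  exact mul_mem h3 (inv_mem (pow_mem h4 n))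

/-- the property of a set of points -/
def GoodSet (R : Subring k) {M : Scheme.{0}}
    (p : M ⟶ Spec (CommRingCat.of R)) (V : (pullback p (specIncl R)).Opens)
    (f : Γ(pullback p (specIncl R), V)) (S : Set (pullback p (specIncl R) : Scheme.{0})) : Prop :=
  ∃ T : Set k, T.Finite ∧ ∀ (s : Spec (CommRingCat.of R) ⟶ M) (hs : s ≫ p = 𝟙 _)
      (h : ⊤ ≤ secPt R p s hs ⁻¹ᵁ V) (x : (Spec (CommRingCat.of k) : Scheme.{0}))
      (_ : (secPt R p s hs).base x ∈ S),
      kval (secPt R p s hs) V h f ∈ Subfield.closure (R ∪ T)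

theorem good_V (h1 : SfracStatement) (h2 : StensStatement) (R : Subring k) {M : Scheme.{0}}
    (p : M ⟶ Spec (CommRingCat.of R)) (V : (pullback p (specIncl R)).Opens)
    (hV : IsCompact V.carrier) (f : Γ(pullback p (specIncl R), V)) :
    GoodSet R p V f V.carrier := by
  apply IsCompact.induction_on (p := GoodSet R p V f) hV
  · refine ⟨∅, Set.finite_empty, ?_⟩
    intro s hs h x hx
    exact absurd hx (Set.notMem_empty _)
  · rintro S S' hSS ⟨T, hT, h3⟩
    exact ⟨T, hT, fun s hs h x hx => h3 s hs h x (hSS hx)⟩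
  · rintro S S' ⟨T, hT, h3⟩ ⟨T', hT', h4⟩
    refine ⟨T ∪ T', hT.union hT', ?_⟩
    intro s hs h x hx
    rcases hx with hx | hx
    · exact Subfield.closure_mono (Set.union_subset_union_right (R : Set k)
        (Set.subset_union_left (s := T) (t := T'))) (h3 s hs h x hx)
    · exact Subfield.closure_mono (Set.union_subset_union_right (R : Set k)
        (Set.subset_union_right (s := T) (t := T'))) (h4 s hs h x hx)
  · intro z hz
    obtain ⟨D, T, hzD, hT, h3⟩ := local_good h1 h2 R p V f z hz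
    refine ⟨D.carrier, mem_nhdsWithin_of_mem_nhds (D.isOpen.mem_nhds hzD), T, hT, ?_⟩
    intro s hs h x hx
    refine h3 s hs h ?_
    intro w _
    have hw : w = x := Subsingleton.elim (α := PrimeSpectrum k) _ _
    subst hw
    exact hx

theorem spread (h1 : SfracStatement) (h2 : StensStatement) : SpreadStatement := by
  intro k _ R M p V hV f
  obtain ⟨T, hT, h3⟩ := good_V h1 h2 R p V hV f
  refine ⟨T, hT, ?_⟩
  intro s hs h
  have hx : (default : PrimeSpectrum k) ∈ (⊤ : (Spec (CommRingCat.of k)).Opens) := trivial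
  exact h3 s hs h _ (h hx)

end

end Pool.Agent.Gen.H17
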