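import Pool.Agent.Lib.MP_c7af3c_ag.GEN.Schemes

/-!
# MP_c7af3c_ag, project GEN, module STENS: functions on the base change of an affine open
-/

set_option autoImplicit false

namespace Pool.Agent.Gen.H17

open AlgebraicGeometry CategoryTheory CategoryTheory.Limits
open Pool.Agent.Gen

/-- a subring of a pushout containing both images is everything -/
theorem pushout_top {P X Y Z : CommRingCat.{0}} {f : P ⟶ X} {g : P ⟶ Y} {inl : X ⟶ Z}
    {inr : Y ⟶ Z} (H : IsPushout f g inl inr) (T : Subring Z) (h1 : ∀ x : X, inl.hom x ∈ T)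
    (h2 : ∀ y : Y, inr.hom y ∈ T) : T = ⊤ := by
  let i : CommRingCat.of T ⟶ Z := CommRingCat.ofHom T.subtype
  let a : X ⟶ CommRingCat.of T := CommRingCat.ofHom (inl.hom.codRestrict T h1)
  let b : Y ⟶ CommRingCat.of T := CommRingCat.ofHom (inr.hom.codRestrict T h2)
  have ha : a ≫ i = inl := by
    ext x
    rfl
  have hb : b ≫ i = inr := by
    ext x
    rfl
  have w : f ≫ a = g ≫ b := by
    ext x
    have := congrArg (fun m : P ⟶ Z => m.hom x) H.w
    exact this
  have hid : H.desc a b w ≫ i = 𝟙 Z := by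
    apply H.hom_ext
    · rw [← Category.assoc, H.inl_desc, ha, Category.comp_id]
    · rw [← Category.assoc, H.inr_desc, hb, Category.comp_id]
  rw [eq_top_iff]
  intro z _
  have hz : i.hom ((H.desc a b w).hom z) = z := by
    have := congrArg (fun m : Z ⟶ Z => m.hom z) hid
    exact this
  rw [← hz]
  exact ((H.desc a b w).hom z).2

theorem stens : StensStatement := by
  intro R A φ M p U hU
  have haf : IsAffineHom (Spec.map φ) := inferInstance
  have haf2 : IsAffineHom (pullback.fst p (Spec.map φ)) :=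
    MorphismProperty.of_isPullback (P := @IsAffineHom)
      (IsPullback.of_hasPullback p (Spec.map φ)).flip haf
  have haff : IsAffineOpen (pullback.fst p (Spec.map φ) ⁻¹ᵁ U) := hU.preimage _
  refine ⟨haff, ?_⟩
  intro T hT1 hT2
  have H := IsPullback.of_hasPullback p (Spec.map φ)
  have hUY : pullback.fst p (Spec.map φ) ⁻¹ᵁ U
      = pullback.fst p (Spec.map φ) ⁻¹ᵁ U ⊓ pullback.snd p (Spec.map φ) ⁻¹ᵁ ⊤ := by simp
  have hiso := isIso_pushoutSection_of_isAffineOpen H (US := ⊤) (UT := ⊤) (UX := U)
    (by simp) (by simp) hUY (isAffineOpen_top _) (isAffineOpen_top _) hU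
  have hPO := (isIso_pushoutSection_iff H (US := ⊤) (UT := ⊤) (UX := U)
    (by simp) (by simp) hUY).1 hiso
  apply pushout_top hPO T
  · intro b
    have h1 := hT1 b
    rw [Scheme.Hom.app_eq_appLE] at h1
    exact h1
  · intro x
    have h1 := hT2 ((Scheme.ΓSpecIso A).hom.hom x)
    have h2 : (Scheme.ΓSpecIso A).inv.hom ((Scheme.ΓSpecIso A).hom.hom x) = x := by
      have := congrArg (fun m => m.hom x) (Scheme.ΓSpecIso A).hom_inv_id
      exact this
    rw [h2] at h1
    exact h1

end Pool.Agent.Gen.H17
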